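import Mathlib

set_option autoImplicit false

/-!
# Additive squares are avoidable over a finite set of integers

The word is a fixed point of a `Q`-uniform morphism on `{0, …, 3M - 1}`:
`x i = y (i mod Q) + M * (H (x (i / Q)) (i mod Q + 1) - H (x (i / Q)) (i mod Q))`.

* The periodic part `y` kills, modulo `M`, every additive square whose block length is not divisible
  by `Q`: its partial sums mod `M` form a function `g` on `ℤ/Q` whose graph has no three term
  progression (a Behrend type construction, so that `Q` can be much larger than `M ^ 2`).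
* For block lengths divisible by `Q` the second difference is `M * (9 * S + P)` with `S` a second
  difference of the same word for a shorter block length and `P` a second difference of
  `a ↦ H a r`; the schedule `H` is such that `9 ∣ P` forces `P ∈ {0, 9 (a - 2 b + c)}`.
-/

namespace Pool.Agent.Work.AddSq

open Finset

/-! ## The schedule -/

/-- The position of coordinate `a` at time `r`: it rests at `0` up to time `3a²+1`, then moves
to `9a+3` in `6a+3` steps of size `1` or `2`, avoiding the multiples of `3` on the way. -/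
def H (a r : ℕ) : ℕ :=
  if r ≤ 3 * a ^ 2 + 1 then 0
  else if 3 * (a + 1) ^ 2 + 1 ≤ r then 9 * a + 3
  else (r - 3 * a ^ 2 - 1) + (r - 3 * a ^ 2 - 2) / 2

theorem sq_succ' (a : ℕ) : (a + 1) ^ 2 = a ^ 2 + 2 * a + 1 := by ring

theorem H_zero (a : ℕ) : H a 0 = 0 := by simp [H]

theorem H_one (a : ℕ) : H a 1 = 0 := by
  unfold H
  rw [if_pos (by omega)]

theorem H_end (a r : ℕ) (h : 3 * (a + 1) ^ 2 + 1 ≤ r) : H a r = 9 * a + 3 := by
  unfold H
  rw [sq_succ'] at *
  rw [if_neg (by omega), if_pos h]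

theorem H_mono (a r : ℕ) : H a r ≤ H a (r + 1) := by
  unfold H
  rw [sq_succ']
  split_ifs <;> omega

theorem H_step (a r : ℕ) : H a (r + 1) ≤ H a r + 2 := by
  unfold H
  rw [sq_succ']
  split_ifs <;> omega

theorem H_cases (a r : ℕ) : H a r = 0 ∨ H a r = 9 * a + 3 ∨
    (H a r % 3 ≠ 0 ∧ 3 * a ^ 2 + 1 < r ∧ r < 3 * (a + 1) ^ 2 + 1) := by
  unfold H
  rw [sq_succ']
  split_ifs with h1 h2
  · left; rfl
  · right; left; rfl
  · right; right
    refine ⟨?_, by omega, by omega⟩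
    omega

theorem moving_le (a b r : ℕ) (ha : 3 * a ^ 2 + 1 < r) (hb : r < 3 * (b + 1) ^ 2 + 1) : a ≤ b := by
  by_contra h
  push Not at h
  have : (b + 1) ^ 2 ≤ a ^ 2 := Nat.pow_le_pow_left h 2
  omega

theorem H_key (a b c r : ℕ) (h : (9 : ℤ) ∣ (H a r : ℤ) - 2 * (H b r : ℤ) + (H c r : ℤ)) :
    (H a r : ℤ) - 2 * (H b r : ℤ) + (H c r : ℤ) = 0 ∨
    (H a r : ℤ) - 2 * (H b r : ℤ) + (H c r : ℤ) = 9 * ((a : ℤ) - 2 * b + c) := by
  have ha := H_cases a r
  have hb := H_cases b r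
  have hc := H_cases c r
  have hab : H a r % 3 ≠ 0 → 3 * a ^ 2 + 1 < r → r < 3 * (a + 1) ^ 2 + 1 →
      3 * b ^ 2 + 1 < r → r < 3 * (b + 1) ^ 2 + 1 → a = b := fun _ h1 h2 h3 h4 =>
    le_antisymm (moving_le a b r h1 h4) (moving_le b a r h3 h2)
  have hac : H a r % 3 ≠ 0 → 3 * a ^ 2 + 1 < r → r < 3 * (a + 1) ^ 2 + 1 →
      3 * c ^ 2 + 1 < r → r < 3 * (c + 1) ^ 2 + 1 → a = c := fun _ h1 h2 h3 h4 =>
    le_antisymm (moving_le a c r h1 h4) (moving_le c a r h3 h2)
  have hbc : H b r % 3 ≠ 0 → 3 * b ^ 2 + 1 < r → r < 3 * (b + 1) ^ 2 + 1 →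
      3 * c ^ 2 + 1 < r → r < 3 * (c + 1) ^ 2 + 1 → b = c := fun _ h1 h2 h3 h4 =>
    le_antisymm (moving_le b c r h1 h4) (moving_le c b r h3 h2)
  rcases ha with ha | ha | ⟨ha, ha1, ha2⟩ <;> rcases hb with hb | hb | ⟨hb, hb1, hb2⟩ <;>
    rcases hc with hc | hc | ⟨hc, hc1, hc2⟩
  case inr.inr.inr.inr.inr.inr =>
    obtain rfl := hab ha ha1 ha2 hb1 hb2
    obtain rfl := hac ha ha1 ha2 hc1 hc2
    left; ring
  case inr.inr.inr.inr.inl =>
    obtain rfl := hab ha ha1 ha2 hb1 hb2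
    omega
  case inr.inr.inr.inr.inr.inl =>
    obtain rfl := hab ha ha1 ha2 hb1 hb2
    omega
  case inr.inr.inl.inr.inr =>
    obtain rfl := hac ha ha1 ha2 hc1 hc2
    omega
  case inr.inr.inr.inl.inr.inr =>
    obtain rfl := hac ha ha1 ha2 hc1 hc2
    omega
  case inl.inr.inr.inr.inr =>
    obtain rfl := hbc hb hb1 hb2 hc1 hc2
    omega
  case inr.inl.inr.inr.inr.inr =>
    obtain rfl := hbc hb hb1 hb2 hc1 hc2
    omega
  all_goals omega

/-! ## A function on `ℤ/Q` whose graph has no three term progression -/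

/-- The pattern of upper halves of the base `d` digits, written in base `3`. -/
def pf (d : ℕ) : ℕ → ℕ → ℤ
  | 0, _ => 0
  | t + 1, i => (if d ≤ 2 * (i % d) then 1 else 0) + 3 * pf d t (i / d)

/-- The sum of squares of the base `d` digits. -/
def ff (d : ℕ) : ℕ → ℕ → ℤ
  | 0, _ => 0
  | t + 1, i => ((i % d : ℕ) : ℤ) ^ 2 + ff d t (i / d)

theorem pf_nonneg (d t i : ℕ) : 0 ≤ pf d t i := by
  induction t generalizing i with
  | zero => simp [pf]
  | succ t ih =>
    have := ih (i / d)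
    unfold pf
    split_ifs <;> omega

theorem pf_lt (d t i : ℕ) : pf d t i ≤ 3 ^ t - 1 := by
  induction t generalizing i with
  | zero => simp [pf]
  | succ t ih =>
    have := ih (i / d)
    unfold pf
    rw [pow_succ]
    split_ifs <;> omega

theorem ff_nonneg (d t i : ℕ) : 0 ≤ ff d t i := by
  induction t generalizing i with
  | zero => simp [ff]
  | succ t ih =>
    have := ih (i / d)
    unfold ff
    positivity

theorem ff_le (d t i : ℕ) (hd : 0 < d) : ff d t i ≤ t * (d : ℤ) ^ 2 := by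
  induction t generalizing i with
  | zero => simp [ff]
  | succ t ih =>
    have h1 := ih (i / d)
    unfold ff
    have h2 : ((i % d : ℕ) : ℤ) ≤ d := by exact_mod_cast (Nat.mod_lt i hd).le
    have h3 : (0 : ℤ) ≤ ((i % d : ℕ) : ℤ) := by positivity
    have h4 : ((i % d : ℕ) : ℤ) ^ 2 ≤ (d : ℤ) ^ 2 := by
      exact pow_le_pow_left₀ h3 h2 2
    push_cast at *
    nlinarith

theorem digit_core (d : ℕ) (hd : 0 < d) (t : ℕ) : ∀ i j k : ℕ, i < d ^ t → j < d ^ t → k < d ^ t →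
    ((d : ℤ) ^ t) ∣ (i : ℤ) + k - 2 * j → pf d t i + pf d t k = 2 * pf d t j →
    (i : ℤ) + k = 2 * j ∧ 0 ≤ ff d t i + ff d t k - 2 * ff d t j ∧
      (ff d t i + ff d t k - 2 * ff d t j = 0 → i = j) := by
  induction t with
  | zero =>
    intro i j k hi hj hk _ _
    simp at hi hj hk
    subst hi hj hk
    simp [ff]
  | succ t ih =>
    intro i j k hi hj hk hdvd hp
    have hdz : (0 : ℤ) < d := by exact_mod_cast hd
    have ei := Nat.div_add_mod i d
    have ej := Nat.div_add_mod j d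
    have ek := Nat.div_add_mod k d
    have li := Nat.mod_lt i hd
    have lj := Nat.mod_lt j hd
    have lk := Nat.mod_lt k hd
    have hi' : i / d < d ^ t := by
      rw [Nat.div_lt_iff_lt_mul hd]; rwa [pow_succ] at hi
    have hj' : j / d < d ^ t := by
      rw [Nat.div_lt_iff_lt_mul hd]; rwa [pow_succ] at hj
    have hk' : k / d < d ^ t := by
      rw [Nat.div_lt_iff_lt_mul hd]; rwa [pow_succ] at hk
    unfold pf at hp
    unfold ff
    set x := i % d with hx
    set y := j % d with hy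
    set z := k % d with hz
    set i1 := i / d with hi1
    set j1 := j / d with hj1
    set k1 := k / d with hk1
    -- the top-half patterns agree
    have hpat : (pf d t i1 + pf d t k1 = 2 * pf d t j1) ∧
        ((d ≤ 2 * x ∧ d ≤ 2 * y ∧ d ≤ 2 * z) ∨ (2 * x < d ∧ 2 * y < d ∧ 2 * z < d)) := by
      generalize pf d t i1 = A at hp ⊢
      generalize pf d t j1 = B at hp ⊢
      generalize pf d t k1 = C at hp ⊢
      split_ifs at hp <;> omega
    obtain ⟨hp1, hhalf⟩ := hpat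
    -- divisibility by `d` of the lowest digits
    have hd1 : (d : ℤ) ∣ (x : ℤ) + z - 2 * y := by
      have h1 : (d : ℤ) ∣ (i : ℤ) + k - 2 * j := by
        refine dvd_trans ?_ hdvd
        exact dvd_pow_self _ (Nat.succ_ne_zero t)
      have h2 : (i : ℤ) + k - 2 * j = d * ((i1 : ℤ) + k1 - 2 * j1) + ((x : ℤ) + z - 2 * y) := by
        rw [← ei, ← ej, ← ek]; push_cast; ring
      rw [h2] at h1
      exact (dvd_add_right (dvd_mul_right _ _)).mp h1
    have hxyz : (x : ℤ) + z - 2 * y = 0 := by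
      apply Int.eq_zero_of_abs_lt_dvd hd1
      rw [abs_lt]
      constructor <;> omega
    have hrec : (i : ℤ) + k - 2 * j = d * ((i1 : ℤ) + k1 - 2 * j1) := by
      have h2 : (i : ℤ) + k - 2 * j = d * ((i1 : ℤ) + k1 - 2 * j1) + ((x : ℤ) + z - 2 * y) := by
        rw [← ei, ← ej, ← ek]; push_cast; ring
      rw [h2, hxyz, add_zero]
    have hd2 : ((d : ℤ) ^ t) ∣ (i1 : ℤ) + k1 - 2 * j1 := by
      rw [hrec, pow_succ, mul_comm ((d : ℤ) ^ t)] at hdvd
      exact Int.dvd_of_mul_dvd_mul_left (ne_of_gt hdz) hdvd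
    obtain ⟨hA, hB, hC⟩ := ih i1 j1 k1 hi' hj' hk' hd2 hp1
    have hsq : (x : ℤ) ^ 2 + (z : ℤ) ^ 2 - 2 * (y : ℤ) ^ 2 = 2 * ((x : ℤ) - y) ^ 2 := by
      have : (z : ℤ) = 2 * y - x := by linarith
      rw [this]; ring
    refine ⟨?_, ?_, ?_⟩
    · have : (i : ℤ) + k - 2 * j = 0 := by rw [hrec, hA]; ring
      linarith
    · have := sq_nonneg ((x : ℤ) - y)
      linarith
    · intro h0
      have h1 : 2 * ((x : ℤ) - y) ^ 2 + (ff d t i1 + ff d t k1 - 2 * ff d t j1) = 0 := by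
        rw [← hsq]; linarith
      have h2 : ((x : ℤ) - y) ^ 2 = 0 := le_antisymm (by linarith) (sq_nonneg _)
      have h3 : ff d t i1 + ff d t k1 - 2 * ff d t j1 = 0 := by linarith
      have h4 := hC h3
      have h5 : (x : ℤ) - y = 0 := by
        exact pow_eq_zero_iff (two_ne_zero) |>.mp h2
      have h6 : x = y := by omega
      rw [← ei, ← ej, h4, h6]

/-- The function `g` on `ℤ/Q`. -/
def g (d t F : ℕ) (i : ℕ) : ℤ := ff d t (i % d ^ t) + F * pf d t (i % d ^ t)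

theorem g_periodic (d t F i : ℕ) : g d t F (i + d ^ t) = g d t F i := by
  unfold g; rw [Nat.add_mod_right]

theorem g_free (d t F M : ℕ) (hd : 0 < d) (hF : 2 * t * d ^ 2 < F) (hM : F * (2 * 3 ^ t) ≤ M)
    (i n : ℕ) (hn : ¬ (d ^ t ∣ n)) :
    ¬ ((M : ℤ) ∣ g d t F i - 2 * g d t F (i + n) + g d t F (i + 2 * n)) := by
  intro hdvd
  apply hn
  have hQ : 0 < d ^ t := pow_pos hd t
  unfold g at hdvd
  set Q := d ^ t with hQdef
  have hF' : 2 * (t : ℤ) * (d : ℤ) ^ 2 < F := by exact_mod_cast hF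
  have hM' : (F : ℤ) * (2 * 3 ^ t) ≤ M := by exact_mod_cast hM
  have hFpos : (0 : ℤ) < F := by
    have : (0 : ℤ) ≤ 2 * (t : ℤ) * (d : ℤ) ^ 2 := by positivity
    linarith
  have b1 := ff_nonneg d t (i % Q)
  have b2 := ff_nonneg d t ((i + n) % Q)
  have b3 := ff_nonneg d t ((i + 2 * n) % Q)
  have c1 := ff_le d t (i % Q) hd
  have c2 := ff_le d t ((i + n) % Q) hd
  have c3 := ff_le d t ((i + 2 * n) % Q) hd
  have e1 := pf_nonneg d t (i % Q)
  have e2 := pf_nonneg d t ((i + n) % Q)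
  have e3 := pf_nonneg d t ((i + 2 * n) % Q)
  have f1 := pf_lt d t (i % Q)
  have f2 := pf_lt d t ((i + n) % Q)
  have f3 := pf_lt d t ((i + 2 * n) % Q)
  have hcore := digit_core d hd t (i % Q) ((i + n) % Q) ((i + 2 * n) % Q)
    (Nat.mod_lt _ hQ) (Nat.mod_lt _ hQ) (Nat.mod_lt _ hQ)
  set f_i := ff d t (i % Q)
  set f_j := ff d t ((i + n) % Q)
  set f_k := ff d t ((i + 2 * n) % Q)
  set p_i := pf d t (i % Q)
  set p_j := pf d t ((i + n) % Q)
  set p_k := pf d t ((i + 2 * n) % Q)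
  have h3 : (1 : ℤ) ≤ 3 ^ t := one_le_pow₀ (by norm_num)
  have hexp : f_i + F * p_i - 2 * (f_j + F * p_j) + (f_k + F * p_k) =
      (f_i + f_k - 2 * f_j) + F * (p_i + p_k - 2 * p_j) := by ring
  rw [hexp] at hdvd
  have hfl : f_i + f_k - 2 * f_j < F := by linarith
  have hfg : -(F : ℤ) < f_i + f_k - 2 * f_j := by linarith
  have hpl : p_i + p_k - 2 * p_j ≤ 2 * (3 ^ t - 1) := by linarith
  have hpg : -(2 * (3 ^ t - 1)) ≤ p_i + p_k - 2 * p_j := by linarith
  have hz : (f_i + f_k - 2 * f_j) + F * (p_i + p_k - 2 * p_j) = 0 := by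
    apply Int.eq_zero_of_abs_lt_dvd hdvd
    rw [abs_lt]
    constructor
    · have : -(F * (2 * (3 ^ t - 1))) ≤ F * (p_i + p_k - 2 * p_j) := by
        have := mul_le_mul_of_nonneg_left hpg hFpos.le
        linarith
      have h9 : (F : ℤ) * (2 * 3 ^ t) = F * (2 * (3 ^ t - 1)) + 2 * F := by ring
      linarith
    · have : F * (p_i + p_k - 2 * p_j) ≤ F * (2 * (3 ^ t - 1)) :=
        mul_le_mul_of_nonneg_left hpl hFpos.le
      have h9 : (F : ℤ) * (2 * 3 ^ t) = F * (2 * (3 ^ t - 1)) + 2 * F := by ring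
      linarith
  have hf0 : f_i + f_k - 2 * f_j = 0 := by
    apply Int.eq_zero_of_abs_lt_dvd (m := (F : ℤ))
    · have : f_i + f_k - 2 * f_j = F * (-(p_i + p_k - 2 * p_j)) := by linarith
      rw [this]; exact dvd_mul_right _ _
    · rw [abs_lt]; exact ⟨hfg, hfl⟩
  have hp0 : p_i + p_k - 2 * p_j = 0 := by
    rw [hf0, zero_add] at hz
    rcases mul_eq_zero.mp hz with h | h
    · omega
    · exact h
  have hdv : ((d : ℤ) ^ t) ∣ ((i % Q : ℕ) : ℤ) + ((i + 2 * n) % Q : ℕ) - 2 * ((i + n) % Q : ℕ) := by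
    have hQz : ((Q : ℕ) : ℤ) = (d : ℤ) ^ t := by rw [hQdef]; push_cast; rfl
    rw [← hQz]
    have a1 : ((i % Q : ℕ) : ℤ) = i - Q * ((i / Q : ℕ) : ℤ) := by
      have := Nat.div_add_mod i Q
      have h : (Q : ℤ) * ((i / Q : ℕ) : ℤ) + ((i % Q : ℕ) : ℤ) = i := by exact_mod_cast this
      linarith
    have a2 : (((i + n) % Q : ℕ) : ℤ) = i + n - Q * (((i + n) / Q : ℕ) : ℤ) := by
      have := Nat.div_add_mod (i + n) Q
      have h : (Q : ℤ) * (((i + n) / Q : ℕ) : ℤ) + (((i + n) % Q : ℕ) : ℤ) = i + n := by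
        exact_mod_cast this
      linarith
    have a3 : (((i + 2 * n) % Q : ℕ) : ℤ) = i + 2 * n - Q * (((i + 2 * n) / Q : ℕ) : ℤ) := by
      have := Nat.div_add_mod (i + 2 * n) Q
      have h : (Q : ℤ) * (((i + 2 * n) / Q : ℕ) : ℤ) + (((i + 2 * n) % Q : ℕ) : ℤ) = i + 2 * n := by
        exact_mod_cast this
      linarith
    rw [a1, a2, a3]
    refine ⟨-((i / Q : ℕ) : ℤ) - (((i + 2 * n) / Q : ℕ) : ℤ) + 2 * (((i + n) / Q : ℕ) : ℤ), ?_⟩
    ring
  obtain ⟨-, -, hC⟩ := hcore hdv (by linarith)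
  have heq := hC hf0
  -- `i ≡ i + n (mod Q)`
  have : i ≡ i + n [MOD Q] := heq
  have h' : i + 0 ≡ i + n [MOD Q] := by simpa using this
  have h'' : 0 ≡ n [MOD Q] := Nat.ModEq.add_left_cancel' i h'
  exact (Nat.modEq_zero_iff_dvd).mp h''.symm

/-! ## The word -/

/-- The fixed point: `xs i = y (i % Q) + M * (H (xs (i/Q)) (i%Q+1) - H (xs (i/Q)) (i%Q))`. -/
def xs (Q M : ℕ) (y : ℕ → ℕ) (i : ℕ) : ℕ :=
  if h : 2 ≤ Q ∧ 1 ≤ i then
    have : i / Q < i := Nat.div_lt_self h.2 h.1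
    y (i % Q) + M * (H (xs Q M y (i / Q)) (i % Q + 1) - H (xs Q M y (i / Q)) (i % Q))
  else y 0
termination_by i

theorem xs_eq (Q M : ℕ) (y : ℕ → ℕ) (hQ : 2 ≤ Q) (i : ℕ) :
    xs Q M y i = y (i % Q) + M * (H (xs Q M y (i / Q)) (i % Q + 1) - H (xs Q M y (i / Q)) (i % Q)) := by
  rw [xs]
  by_cases h : 1 ≤ i
  · rw [dif_pos ⟨hQ, h⟩]
  · have hi : i = 0 := by omega
    subst hi
    rw [dif_neg (by omega)]
    simp [H_zero, H_one]

theorem xs_lt (Q M : ℕ) (y : ℕ → ℕ) (hQ : 2 ≤ Q) (hy : ∀ r, y r < M) (i : ℕ) :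
    xs Q M y i < 3 * M := by
  rw [xs_eq Q M y hQ]
  have h1 := H_step (xs Q M y (i / Q)) (i % Q)
  have h2 := hy (i % Q)
  have h3 : H (xs Q M y (i / Q)) (i % Q + 1) - H (xs Q M y (i / Q)) (i % Q) ≤ 2 := by omega
  have h4 := Nat.mul_le_mul_left M h3
  omega

/-- Partial sums. -/
def S (x : ℕ → ℕ) (i : ℕ) : ℤ := ∑ j ∈ range i, (x j : ℤ)

theorem S_succ (x : ℕ → ℕ) (i : ℕ) : S x (i + 1) = S x i + x i := by
  unfold S; rw [sum_range_succ]

theorem S_block (Q M : ℕ) (y : ℕ → ℕ) (hQ : 2 ≤ Q) (hy : ∀ r, y r < M)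
    (hQM : 3 * (3 * M) ^ 2 + 1 ≤ Q) (j r : ℕ) (hr : r ≤ Q) :
    S (xs Q M y) (Q * j + r) = 9 * M * S (xs Q M y) j + j * (S y Q + 3 * M) + S y r
      + M * H (xs Q M y j) r := by
  induction j generalizing r with
  | zero =>
    induction r with
    | zero => simp [S, H_zero]
    | succ r ihr =>
      have h1 := ihr (by omega)
      rw [← add_assoc, S_succ (xs Q M y), h1, S_succ y r]
      have h2 : (Q * 0 + r) % Q = r := by
        rw [Nat.mul_zero, Nat.zero_add]; exact Nat.mod_eq_of_lt (by omega)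
      have h3 : (Q * 0 + r) / Q = 0 := by
        rw [Nat.mul_zero, Nat.zero_add]; exact Nat.div_eq_of_lt (by omega)
      rw [xs_eq Q M y hQ (Q * 0 + r), h2, h3]
      push_cast [Nat.cast_sub (H_mono (xs Q M y 0) r)]
      ring
  | succ j ihj =>
    induction r with
    | zero =>
      have h1 := ihj Q le_rfl
      have h2 : Q * (j + 1) + 0 = Q * j + Q := by ring
      rw [h2, h1, S_succ]
      have h3 : 3 * (xs Q M y j + 1) ^ 2 + 1 ≤ Q := by
        have h4 : xs Q M y j + 1 ≤ 3 * M := xs_lt Q M y hQ hy j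
        have h5 : (xs Q M y j + 1) ^ 2 ≤ (3 * M) ^ 2 := Nat.pow_le_pow_left h4 2
        omega
      rw [H_end _ _ h3, H_zero]
      have h6 : S y 0 = 0 := by simp [S]
      rw [h6]
      push_cast
      ring
    | succ r ihr =>
      have h1 := ihr (by omega)
      rw [← add_assoc, S_succ (xs Q M y), h1, S_succ y r]
      have h2 : (Q * (j + 1) + r) % Q = r := by
        rw [Nat.mul_add_mod]; exact Nat.mod_eq_of_lt (by omega)
      have h3 : (Q * (j + 1) + r) / Q = j + 1 := by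
        rw [Nat.mul_add_div (by omega), Nat.div_eq_of_lt (by omega)]
      rw [xs_eq Q M y hQ (Q * (j + 1) + r), h2, h3]
      push_cast [Nat.cast_sub (H_mono (xs Q M y (j + 1)) r)]
      ring

/-- Main step: the word has no vanishing second difference of its partial sums. -/
theorem no_square (Q M : ℕ) (y : ℕ → ℕ) (G : ℕ → ℤ) (hQ : 2 ≤ Q) (hM : 0 < M) (hy : ∀ r, y r < M)
    (hQM : 3 * (3 * M) ^ 2 + 1 ≤ Q)
    (hG : ∀ i, (M : ℤ) ∣ (y (i % Q) : ℤ) - (G (i + 1) - G i))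
    (hfree : ∀ i n, ¬ (Q ∣ n) → ¬ ((M : ℤ) ∣ G i - 2 * G (i + n) + G (i + 2 * n))) :
    ∀ n, 0 < n → ∀ i, S (xs Q M y) i - 2 * S (xs Q M y) (i + n) + S (xs Q M y) (i + 2 * n) ≠ 0 := by
  have hmod : ∀ i, (M : ℤ) ∣ S (xs Q M y) i - (G i - G 0) := by
    intro i
    induction i with
    | zero => simp [S]
    | succ i ih =>
      rw [S_succ, xs_eq Q M y hQ i]
      have h1 := hG i
      have h2 : S (xs Q M y) i + ((y (i % Q) + M * (H (xs Q M y (i / Q)) (i % Q + 1)
          - H (xs Q M y (i / Q)) (i % Q)) : ℕ) : ℤ) - (G (i + 1) - G 0)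
          = (S (xs Q M y) i - (G i - G 0)) + ((y (i % Q) : ℤ) - (G (i + 1) - G i))
            + M * ((H (xs Q M y (i / Q)) (i % Q + 1) - H (xs Q M y (i / Q)) (i % Q) : ℕ) : ℤ) := by
        push_cast
        ring
      rw [h2]
      exact dvd_add (dvd_add ih h1) (dvd_mul_right _ _)
  intro n
  induction n using Nat.strong_induction_on with
  | _ n ih =>
    intro hn i h0
    by_cases hdv : Q ∣ n
    · obtain ⟨n1, rfl⟩ := hdv
      have hn1 : 0 < n1 := by
        rcases Nat.eq_zero_or_pos n1 with h | h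
        · subst h; simp at hn
        · exact h
      have hlt : n1 < Q * n1 := by nlinarith
      have hi := Nat.div_add_mod i Q
      set j := i / Q
      set r := i % Q with hrdef
      have hr : r < Q := Nat.mod_lt _ (by omega)
      have e1 : i = Q * j + r := hi.symm
      have e2 : i + Q * n1 = Q * (j + n1) + r := by rw [e1]; ring
      have e3 : i + 2 * (Q * n1) = Q * (j + 2 * n1) + r := by rw [e1]; ring
      rw [e2, e3, e1, S_block Q M y hQ hy hQM _ _ hr.le, S_block Q M y hQ hy hQM _ _ hr.le,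
        S_block Q M y hQ hy hQM _ _ hr.le] at h0
      have hA := ih n1 hlt hn1 j
      have hB := ih n1 hlt hn1 (j + 1)
      have s1 : S (xs Q M y) (j + 1) = S (xs Q M y) j + xs Q M y j := S_succ _ _
      have s2 : S (xs Q M y) (j + 1 + n1) = S (xs Q M y) (j + n1) + xs Q M y (j + n1) := by
        rw [show j + 1 + n1 = (j + n1) + 1 by ring]; exact S_succ _ _
      have s3 : S (xs Q M y) (j + 1 + 2 * n1) =
          S (xs Q M y) (j + 2 * n1) + xs Q M y (j + 2 * n1) := by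
        rw [show j + 1 + 2 * n1 = (j + 2 * n1) + 1 by ring]; exact S_succ _ _
      rw [s1, s2, s3] at hB
      have hkey := H_key (xs Q M y j) (xs Q M y (j + n1)) (xs Q M y (j + 2 * n1)) r
      generalize S (xs Q M y) j = A at *
      generalize S (xs Q M y) (j + n1) = B at *
      generalize S (xs Q M y) (j + 2 * n1) = C at *
      have hMz : (M : ℤ) ≠ 0 := by exact_mod_cast hM.ne'
      have h1 : (M : ℤ) * (9 * (A - 2 * B + C) + ((H (xs Q M y j) r : ℤ)
          - 2 * (H (xs Q M y (j + n1)) r : ℤ) + (H (xs Q M y (j + 2 * n1)) r : ℤ))) = 0 := by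
        rw [← h0]; push_cast; ring
      have h2 := (mul_eq_zero.mp h1).resolve_left hMz
      rcases hkey ⟨-(A - 2 * B + C), by linarith⟩ with hk | hk
      · rw [hk] at h2
        apply hA; linarith
      · rw [hk] at h2
        apply hB; linarith
    · apply hfree i n hdv
      have h1 := hmod i
      have h2 := hmod (i + n)
      have h3 := hmod (i + 2 * n)
      have h4 : G i - 2 * G (i + n) + G (i + 2 * n) =
          (S (xs Q M y) i - 2 * S (xs Q M y) (i + n) + S (xs Q M y) (i + 2 * n))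
          - (S (xs Q M y) i - (G i - G 0)) + 2 * (S (xs Q M y) (i + n) - (G (i + n) - G 0))
          - (S (xs Q M y) (i + 2 * n) - (G (i + 2 * n) - G 0)) := by ring
      rw [h4, h0]
      exact dvd_sub (dvd_add (dvd_sub (dvd_zero _) h1) (Dvd.dvd.mul_left h2 2)) h3

/-- Additive squares are avoidable over a finite set of natural numbers. -/
theorem main : ∃ A : Finset ℕ, ∃ w : ℕ → ℕ, (∀ i, w i ∈ A) ∧
    ∀ i n : ℕ, 0 < n →
      ∑ k ∈ Finset.range n, w (i + k) ≠ ∑ k ∈ Finset.range n, w (i + n + k) := by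
  -- parameters
  obtain ⟨d, hd⟩ : ∃ d : ℕ, d = 10 ^ 4 := ⟨_, rfl⟩
  obtain ⟨t, ht⟩ : ∃ t : ℕ, t = 10 := ⟨_, rfl⟩
  obtain ⟨F, hF⟩ : ∃ F : ℕ, F = 3 * 10 ^ 9 := ⟨_, rfl⟩
  obtain ⟨M, hM⟩ : ∃ M : ℕ, M = 4 * 10 ^ 14 := ⟨_, rfl⟩
  obtain ⟨Q, hQ⟩ : ∃ Q : ℕ, Q = d ^ t := ⟨_, rfl⟩
  have hQv : Q = 10 ^ 40 := by rw [hQ, hd, ht]; norm_num
  let G := g d t F
  let y : ℕ → ℕ := fun r => ((G (r + 1) - G r) % (M : ℤ)).toNat
  have hMpos : 0 < M := by rw [hM]; norm_num
  have hMz : (0 : ℤ) < M := by exact_mod_cast hMpos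
  have hQ2 : 2 ≤ Q := by rw [hQv]; norm_num
  have hQM : 3 * (3 * M) ^ 2 + 1 ≤ Q := by rw [hQv, hM]; norm_num
  have hyv : ∀ r, (y r : ℤ) = (G (r + 1) - G r) % (M : ℤ) := fun r =>
    Int.toNat_of_nonneg (Int.emod_nonneg _ hMz.ne')
  have hy : ∀ r, y r < M := by
    intro r
    have h1 := hyv r
    have h2 := Int.emod_lt_of_pos (G (r + 1) - G r) hMz
    rw [← h1] at h2
    exact_mod_cast h2
  have hper : ∀ i q, G (i + Q * q) = G i := by
    intro i q
    induction q with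
    | zero => simp
    | succ q ih =>
      rw [show i + Q * (q + 1) = (i + Q * q) + Q by ring, hQ]
      show g d t F _ = _
      rw [g_periodic, ← hQ]
      exact ih
  have hG : ∀ i, (M : ℤ) ∣ (y (i % Q) : ℤ) - (G (i + 1) - G i) := by
    intro i
    have hi := Nat.div_add_mod i Q
    have h1 : G (i + 1) = G (i % Q + 1) := by
      have h3 := hper (i % Q + 1) (i / Q)
      rw [← h3]; congr 1; omega
    have h2 : G i = G (i % Q) := by
      have h3 := hper (i % Q) (i / Q)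
      rw [← h3]; congr 1; omega
    rw [hyv, h1, h2]
    have h5 := Int.emod_add_mul_ediv (G (i % Q + 1) - G (i % Q)) (M : ℤ)
    refine ⟨-((G (i % Q + 1) - G (i % Q)) / (M : ℤ)), ?_⟩
    linarith
  have hfree : ∀ i n, ¬ (Q ∣ n) → ¬ ((M : ℤ) ∣ G i - 2 * G (i + n) + G (i + 2 * n)) := by
    intro i n hn
    rw [hQ] at hn
    exact g_free d t F M (by rw [hd]; norm_num) (by rw [hd, ht, hF]; norm_num)
      (by rw [hF, ht, hM]; norm_num) i n hn
  have hmain := no_square Q M y G hQ2 hMpos hy hQM hG hfree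
  refine ⟨Finset.range (3 * M), xs Q M y, fun i => Finset.mem_range.mpr (xs_lt Q M y hQ2 hy i), ?_⟩
  intro i n hn heq
  apply hmain n hn i
  have h1 : S (xs Q M y) (i + n) = S (xs Q M y) i + ∑ k ∈ Finset.range n, (xs Q M y (i + k) : ℤ) := by
    unfold S; rw [Finset.sum_range_add]
  have h2 : S (xs Q M y) (i + 2 * n) = S (xs Q M y) (i + n)
      + ∑ k ∈ Finset.range n, (xs Q M y (i + n + k) : ℤ) := by
    unfold S; rw [show i + 2 * n = (i + n) + n by ring, Finset.sum_range_add]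
  have h3 : ∑ k ∈ Finset.range n, (xs Q M y (i + k) : ℤ)
      = ∑ k ∈ Finset.range n, (xs Q M y (i + n + k) : ℤ) := by exact_mod_cast heq
  rw [h2, h1, h3]
  ring

end Pool.Agent.Work.AddSq
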